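import Pool.Agent.Q241.PN.Step

/-!
# Lattices with a maximal chain of relatively modular elements
-/

set_option autoImplicit false

namespace Pool.Agent.Q241.PN

open Pool.Agent.TH903.Semi

/-- a maximal chain `⊥ = c 0 ⋖ c 1 ⋖ ⋯ ⋖ c k = ⊤` in which every `c i` is (left) modular in the
interval `[⊥, c (i + 1)]` -/
def ModularChain (L : Type*) [Lattice L] [BoundedOrder L] : Prop :=
  ∃ (k : ℕ) (c : ℕ → L), c 0 = ⊥ ∧ c k = ⊤ ∧ ∀ i < k, c i ⋖ c (i + 1) ∧
    ∀ b x, b ≤ x → x ≤ c (i + 1) → (b ⊔ c i) ⊓ x = b ⊔ (c i ⊓ x)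

variable {L : Type*} [Lattice L] [BoundedOrder L]

def isoIic {a b : L} (hab : a ≤ b) : Set.Iic a ≃o Set.Iic (⟨a, hab⟩ : Set.Iic b) where
  toFun x := ⟨⟨x.1, x.2.trans hab⟩, x.2⟩
  invFun y := ⟨y.1.1, y.2⟩
  left_inv _ := rfl
  right_inv _ := rfl
  map_rel_iff' := Iff.rfl

def isoTop : Set.Iic (⊤ : L) ≃o L where
  toFun x := x.1
  invFun y := ⟨y, le_top⟩
  left_inv _ := rfl
  right_inv _ := rfl
  map_rel_iff' := Iff.rfl

theorem chain_strict [Finite L] (h : ModularChain L) : StrictJ L := by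
  obtain ⟨k, c, h0, hk, hc⟩ := h
  have main : ∀ i, i ≤ k → StrictJ (Set.Iic (c i)) := by
    intro i
    induction i with
    | zero =>
      intro _
      refine Or.inr (boolLike_of_subsingleton _ ?_)
      apply Subtype.ext
      change (⊥ : L) = c 0
      exact h0.symm
    | succ i ih =>
      intro hi
      have hcov := (hc i (by omega)).1
      have hmod := (hc i (by omega)).2
      have hS := StrictJ.congr (isoIic hcov.le) (ih (by omega))
      have hne : ¬ (⊤ : Set.Iic (c (i + 1))) ≤ ⟨c i, hcov.le⟩ := by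
        intro h
        exact absurd (show c (i + 1) ≤ c i from h) (not_le_of_gt hcov.lt)
      obtain ⟨j, hj, -, hjm, -⟩ := exists_irred hne
      refine strict_step hj hjm ?_ hS
      intro x hx
      apply Subtype.ext
      change (x.1 ⊓ c i) ⊔ j.1 = x.1
      have h1 := hmod j.1 x.1 hx x.2
      have h2 : j.1 ⊔ c i = c (i + 1) := by
        have h3 : c i < j.1 ⊔ c i := by
          refine lt_of_le_of_ne le_sup_right fun h => hjm ?_
          change j.1 ≤ c i
          rw [h]; exact le_sup_left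
        have h4 : j.1 ⊔ c i ≤ c (i + 1) := sup_le j.2 hcov.le
        rcases h4.lt_or_eq with h5 | h5
        · exact absurd h5 (hcov.2 h3)
        · exact h5
      rw [h2, inf_eq_right.mpr x.2] at h1
      rw [inf_comm, sup_comm]
      exact h1.symm
  have := main k le_rfl
  rw [hk] at this
  exact StrictJ.congr isoTop this

/-- a maximal chain of left modular elements -/
theorem chain_of_modular (k : ℕ) (c : ℕ → L) (h0 : c 0 = ⊥) (hk : c k = ⊤)
    (hc : ∀ i < k, c i ⋖ c (i + 1)) (hm : ∀ i < k, ∀ b x, b ≤ x → (b ⊔ c i) ⊓ x = b ⊔ (c i ⊓ x)) :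
    ModularChain L :=
  ⟨k, c, h0, hk, fun i hi => ⟨hc i hi, fun b x hbx _ => hm i hi b x hbx⟩⟩

/-- lower semimodular lattices -/
theorem chain_lower [Finite L] [IsLowerModularLattice L] : ModularChain L := by
  obtain ⟨c, hmin, n, hmax, hcov⟩ := exists_covBy_seq_of_wellFoundedLT_wellFoundedGT L
  refine ⟨n, c, isMin_iff_eq_bot.mp hmin, isMax_iff_eq_top.mp hmax, fun i hi => ⟨hcov i hi, ?_⟩⟩
  intro b x hbx hx
  have hci := hcov i hi
  by_cases hb : b ≤ c i
  · rw [sup_eq_right.mpr hb, sup_eq_right.mpr (le_inf hb hbx)]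
  · have h2 : ∀ y, y ≤ c (i + 1) → ¬ y ≤ c i → y ⊔ c i = c (i + 1) := by
      intro y hy hny
      have h3 : c i < y ⊔ c i := lt_of_le_of_ne le_sup_right fun h => hny (by rw [h]; exact le_sup_left)
      have h4 : y ⊔ c i ≤ c (i + 1) := sup_le hy hci.le
      rcases h4.lt_or_eq with h5 | h5
      · exact absurd h5 (hci.2 h3)
      · exact h5
    rw [h2 b (hbx.trans hx) hb, inf_eq_right.mpr hx]
    have hxc : ¬ x ≤ c i := fun h => hb (hbx.trans h)
    have h5 : c i ⋖ c i ⊔ x := by rw [sup_comm, h2 x hx hxc]; exact hci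
    have h6 : c i ⊓ x ⋖ x := IsLowerModularLattice.inf_covBy_of_covBy_sup h5
    have h7 : c i ⊓ x < b ⊔ (c i ⊓ x) := by
      refine lt_of_le_of_ne le_sup_right fun h => hb ?_
      have : b ≤ c i ⊓ x := by rw [h]; exact le_sup_left
      exact this.trans inf_le_left
    have h8 : b ⊔ (c i ⊓ x) ≤ x := sup_le hbx inf_le_right
    rcases h8.lt_or_eq with h9 | h9
    · exact absurd h9 (h6.2 h7)
    · exact h9.symm

end Pool.Agent.Q241.PN
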