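import Pool.Agent.Q241.PN.Step

/-!
# Subgroup lattices of finite solvable groups and their duals
-/

set_option autoImplicit false

namespace Pool.Agent.Q241.PN

open Pool.Agent.TH903.Semi OrderDual

universe u

/-- the subgroup lattice -/
theorem strict_sub_aux (n : ℕ) : ∀ (G : Type u) [Group G] [Finite G] [Group.IsSolvable G],
    Nat.card G = n → StrictJ (Subgroup G) := by
  induction n using Nat.strong_induction_on with
  | _ n ih =>
    intro G _ _ _ hn
    rcases subsingleton_or_nontrivial G with hsub | hnt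
    · exact Or.inr (boolLike_of_subsingleton _ (Subsingleton.elim _ _))
    have hlt := Group.IsSolvable.commutator_lt_top_of_nontrivial G
    obtain ⟨K, hK, hle⟩ := (eq_top_or_exists_le_coatom (commutator G)).resolve_left hlt.ne
    have hKn : K.Normal := Subgroup.Normal.of_commutator_le G hle
    have htop : ¬ (⊤ : Subgroup G) ≤ K := fun h => hK.1 (top_le_iff.mp h)
    obtain ⟨j, hj, -, hjm, -⟩ := exists_irred htop
    have hjK : j ⊔ K = ⊤ := by
      have : K < j ⊔ K := lt_of_le_of_ne le_sup_right fun h => hjm (by rw [h]; exact le_sup_left)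
      exact hK.2 _ this
    refine strict_step hj hjm ?_ ?_
    · intro x hx
      refine le_antisymm (sup_le inf_le_left hx) ?_
      intro g hg
      have h1 : g ∈ j ⊔ K := by rw [hjK]; trivial
      obtain ⟨a, ha, b, hb, rfl⟩ := Subgroup.mem_sup_of_normal_right.mp h1
      have hbx : b ∈ x := by
        have := x.mul_mem (x.inv_mem (hx ha)) hg
        rwa [inv_mul_cancel_left] at this
      exact Subgroup.mul_mem _ (Subgroup.mem_sup_right ha)
        (Subgroup.mem_sup_left (Subgroup.mem_inf.mpr ⟨hbx, hb⟩))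
    · have hcard : Nat.card K < n := by
        rw [← hn]
        have h1 : Nat.card K ≠ Nat.card G := fun h => hK.1 (Subgroup.eq_top_of_card_eq K h)
        exact lt_of_le_of_ne (Subgroup.card_le_card_group K) h1
      have e : Subgroup K ≃o Set.Iic K := Subgroup.MapSubtype.orderIso K
      exact StrictJ.congr e (ih _ hcard K rfl)

theorem strict_sub (G : Type u) [Group G] [Finite G] [Group.IsSolvable G] :
    StrictJ (Subgroup G) := strict_sub_aux _ G rfl

section minimal

variable {G : Type u} [Group G] [Finite G] [Group.IsSolvable G]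

/-- minimal normal subgroups of finite solvable groups -/
theorem exists_minimal [Nontrivial G] : ∃ N : Subgroup G, N.Normal ∧ N ≠ ⊥ ∧
    (∀ K : Subgroup G, K.Normal → K ≤ N → K = ⊥ ∨ K = N) ∧
    (∀ x ∈ N, ∀ y ∈ N, x * y = y * x) ∧ ∃ p : ℕ, p.Prime ∧ ∀ x ∈ N, x ^ p = 1 := by
  obtain ⟨N, ⟨hN, hNb⟩, hmin⟩ := (wellFounded_lt (α := Subgroup G)).has_min
    {K : Subgroup G | K.Normal ∧ K ≠ ⊥} ⟨⊤, inferInstance, top_ne_bot⟩
  have hmin' : ∀ K : Subgroup G, K.Normal → K ≤ N → K = ⊥ ∨ K = N := by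
    intro K hK hKN
    by_contra h
    push Not at h
    exact hmin K ⟨hK, h.1⟩ (lt_of_le_of_ne hKN h.2)
  have hab : ∀ x ∈ N, ∀ y ∈ N, x * y = y * x := by
    have h1 : ⁅N, N⁆ < N := Group.IsSolvable.commutator_lt_of_ne_bot hNb
    have h2 : ⁅N, N⁆ = ⊥ := (hmin' _ inferInstance h1.le).resolve_right h1.ne
    rw [Subgroup.commutator_eq_bot_iff_le_centralizer] at h2
    intro x hx y hy
    exact (Subgroup.mem_centralizer_iff.mp (h2 hx) y hy).symm
  refine ⟨N, hN, hNb, hmin', hab, ?_⟩
  have hcard : 1 < Nat.card N := by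
    rw [Finite.one_lt_card_iff_nontrivial]
    exact (Subgroup.nontrivial_iff_ne_bot N).mpr hNb
  obtain ⟨p, hp, hdvd⟩ := Nat.exists_prime_and_dvd hcard.ne'
  refine ⟨p, hp, ?_⟩
  have := Fact.mk hp
  let K : Subgroup G :=
    { carrier := {x | x ∈ N ∧ x ^ p = 1}
      one_mem' := ⟨N.one_mem, one_pow p⟩
      mul_mem' := by
        rintro a b ⟨ha, ha'⟩ ⟨hb, hb'⟩
        refine ⟨N.mul_mem ha hb, ?_⟩
        have hc : Commute a b := hab a ha b hb
        rw [hc.mul_pow, ha', hb', one_mul]
      inv_mem' := by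
        rintro a ⟨ha, ha'⟩
        refine ⟨N.inv_mem ha, ?_⟩
        rw [inv_pow, ha', inv_one] }
  have hKn : K.Normal := by
    refine ⟨fun x hx g => ⟨hN.conj_mem x hx.1 g, ?_⟩⟩
    rw [conj_pow, hx.2, mul_one, mul_inv_cancel]
  have hKle : K ≤ N := fun x hx => hx.1
  have hKne : K ≠ ⊥ := by
    obtain ⟨x, hx⟩ := exists_prime_orderOf_dvd_card' (G := N) p hdvd
    intro h
    have h1 : (x : G) ∈ K := ⟨x.2, by
      have := pow_orderOf_eq_one x
      rw [hx] at this
      exact congrArg Subtype.val this⟩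
    rw [h, Subgroup.mem_bot] at h1
    have h2 : x = 1 := Subtype.ext h1
    rw [h2, orderOf_one] at hx
    exact hp.one_lt.ne hx
  have hKN : K = N := (hmin' K hKn hKle).resolve_left hKne
  intro x hx
  rw [← hKN] at hx
  exact hx.2

/-- a supplement of the centralizer of a minimal normal subgroup `N` which does not contain `N` -/
theorem exists_supplement {N : Subgroup G} (hN : N.Normal) (hNb : N ≠ ⊥)
    (hmin : ∀ K : Subgroup G, K.Normal → K ≤ N → K = ⊥ ∨ K = N)
    (hab : ∀ x ∈ N, ∀ y ∈ N, x * y = y * x) {p : ℕ} (hp : p.Prime) (hNp : ∀ x ∈ N, x ^ p = 1) :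
    ∃ H : Subgroup G, H ⊔ Subgroup.centralizer (N : Set G) = ⊤ ∧ ¬ N ≤ H := by
  set C : Subgroup G := Subgroup.centralizer (N : Set G) with hC
  have hCn : C.Normal := Subgroup.normal_centralizer
  by_cases hCt : C = ⊤
  · exact ⟨⊥, by rw [hCt, sup_top_eq], fun h => hNb (le_bot_iff.mp h)⟩
  have hpF := Fact.mk hp
  have hNC : N ≤ C := fun x hx => Subgroup.mem_centralizer_iff.mpr fun y hy => hab y hy x hx
  have hntq : Nontrivial (G ⧸ C) := QuotientGroup.nontrivial_iff.mpr hCt
  obtain ⟨F', hF', hF'b, -, -, q, hq, hF'q⟩ := exists_minimal (G := G ⧸ C)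
  have hqF := Fact.mk hq
  set F : Subgroup G := F'.comap (QuotientGroup.mk' C) with hF
  have hFn : F.Normal := hF'.comap _
  have hCF : C ≤ F := QuotientGroup.le_comap_mk' C F'
  have hFC : ¬ F ≤ C := by
    intro h
    apply hF'b
    rw [eq_bot_iff]
    intro x hx
    obtain ⟨g, rfl⟩ := QuotientGroup.mk'_surjective C x
    have : g ∈ F := hx
    exact (QuotientGroup.eq_one_iff g).mpr (h this)
  have hFq : ∀ x ∈ F, x ^ q ∈ C := by
    intro x hx
    have h1 := hF'q _ (show (QuotientGroup.mk' C) x ∈ F' from hx)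
    rw [← map_pow] at h1
    exact (QuotientGroup.eq_one_iff _).mp h1
  obtain ⟨Q⟩ : Nonempty (Sylow q F) := inferInstance
  set Q' : Subgroup G := (Q : Subgroup F).map F.subtype with hQ'
  have hQ'F : Q' ≤ F := by
    rintro x ⟨y, -, rfl⟩
    exact y.2
  -- `F ≤ C ⊔ Q'`
  have hFle : F ≤ C ⊔ Q' := by
    set E : Subgroup F := C.subgroupOf F ⊔ (Q : Subgroup F) with hE
    have hi1 : ¬ q ∣ E.index := fun h =>
      Q.not_dvd_index (h.trans (Subgroup.index_dvd_of_le le_sup_right))
    have hPq : IsPGroup q (F ⧸ C.subgroupOf F) := by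
      intro x
      obtain ⟨y, rfl⟩ := QuotientGroup.mk'_surjective _ x
      refine ⟨1, ?_⟩
      rw [pow_one, ← map_pow]
      exact (QuotientGroup.eq_one_iff _).mpr (Subgroup.mem_subgroupOf.mpr (hFq y y.2))
    obtain ⟨k, hk⟩ := IsPGroup.iff_card.mp hPq
    have hi2 : E.index ∣ q ^ k := by
      rw [← hk, ← Subgroup.index_eq_card]
      exact Subgroup.index_dvd_of_le le_sup_left
    have hi3 : E.index = 1 := by
      obtain ⟨l, -, hl⟩ := (Nat.dvd_prime_pow hq).mp hi2
      rcases Nat.eq_zero_or_pos l with rfl | hl0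
      · rw [hl, pow_zero]
      · exact absurd (hl ▸ dvd_pow_self q hl0.ne') hi1
    rw [Subgroup.index_eq_one] at hi3
    intro x hx
    have h1 : (⟨x, hx⟩ : F) ∈ E := by rw [hi3]; trivial
    obtain ⟨a, ha, b, hb, hab'⟩ := Subgroup.mem_sup_of_normal_left.mp h1
    have h2 : (a : G) * b = x := congrArg Subtype.val hab'
    rw [← h2]
    exact Subgroup.mul_mem _ (Subgroup.mem_sup_left (Subgroup.mem_subgroupOf.mp ha))
      (Subgroup.mem_sup_right ⟨b, hb, rfl⟩)
  have hfrat := Sylow.normalizer_sup_eq_top Q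
  refine ⟨Subgroup.normalizer (Q' : Set G), ?_, ?_⟩
  · rw [eq_top_iff]
    have h1 : (⊤ : Subgroup G) ≤ Subgroup.normalizer (Q' : Set G) ⊔ F := by
      rw [← hfrat]
    refine h1.trans (sup_le le_sup_left (hFle.trans (sup_le le_sup_right ?_)))
    exact le_trans Subgroup.le_normalizer le_sup_left
  · intro hNH
    -- elements of `N` and `Q'` commute if `q ≠ p`
    have hPN : IsPGroup p N := fun x => ⟨1, by
      rw [pow_one]
      exact Subtype.ext (hNp x x.2)⟩
    have hPQ : IsPGroup q Q' := Q.isPGroup'.map F.subtype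
    by_cases hqp : q = p
    · -- fixed points
      subst hqp
      let φ : Q' →* MulAut N := (MulAut.conjNormal).comp Q'.subtype
      let _ : MulAction Q' N := MulAction.compHom N φ
      have hNcard : q ∣ Nat.card N := by
        obtain ⟨n, hn⟩ := IsPGroup.iff_card.mp hPN
        have h1 : Nat.card N ≠ 1 := fun h => hNb (Subgroup.card_eq_one.mp h)
        rcases Nat.eq_zero_or_pos n with rfl | h0
        · rw [pow_zero] at hn; exact absurd hn h1
        · rw [hn]; exact dvd_pow_self q h0.ne'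
      obtain ⟨b, hb, hb1⟩ := hPQ.exists_fixed_point_of_prime_dvd_card_of_fixed_point N hNcard
        (a := (1 : N)) (by
          intro g
          change φ g 1 = 1
          exact map_one _)
      have hbQ : ∀ g ∈ Q', g * (b : G) = b * g := by
        intro g hg
        have h1 : φ ⟨g, hg⟩ b = b := hb ⟨g, hg⟩
        have h2 : g * (b : G) * g⁻¹ = b := congrArg Subtype.val h1
        rw [← h2, inv_mul_cancel_right, h2]
      -- `N ⊓ centralizer F`
      let K : Subgroup G := N ⊓ Subgroup.centralizer (F : Set G)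
      have hKn : K.Normal := inferInstance
      have hbF : (b : G) ∈ K := by
        refine Subgroup.mem_inf.mpr ⟨b.2, Subgroup.mem_centralizer_iff.mpr fun g hg => ?_⟩
        obtain ⟨c, hc, y, hy, rfl⟩ := Subgroup.mem_sup_of_normal_left.mp (hFle hg)
        have h1 : c * (b : G) = b * c :=
          ((Subgroup.mem_centralizer_iff.mp hc) b b.2).symm
        rw [mul_assoc, hbQ y hy, ← mul_assoc, h1, mul_assoc]
      have hKN : K = N := by
        refine (hmin K hKn inf_le_left).resolve_left fun h => ?_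
        rw [h, Subgroup.mem_bot] at hbF
        exact hb1 (Subtype.ext hbF).symm
      apply hFC
      intro g hg
      refine Subgroup.mem_centralizer_iff.mpr fun x hx => ?_
      have h1 : x ∈ K := by rw [hKN]; exact hx
      exact ((Subgroup.mem_centralizer_iff.mp (Subgroup.mem_inf.mp h1).2) g hg).symm
    · have hdis := IsPGroup.disjoint_of_ne q p hqp Q' N hPQ hPN
      have hQC : Q' ≤ C := by
        intro y hy
        refine Subgroup.mem_centralizer_iff.mpr fun x hx => ?_
        have h1 : x * y * x⁻¹ * y⁻¹ ∈ Q' := by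
          refine Q'.mul_mem ?_ (Q'.inv_mem hy)
          exact (Subgroup.mem_normalizer_iff.mp (hNH hx) y).mp hy
        have h2 : x * y * x⁻¹ * y⁻¹ ∈ N := by
          have : x * y * x⁻¹ * y⁻¹ = x * (y * x⁻¹ * y⁻¹) := by group
          rw [this]
          exact N.mul_mem hx (hN.conj_mem _ (N.inv_mem hx) y)
        have h3 : x * y * x⁻¹ * y⁻¹ = 1 := by
          have := (disjoint_iff.mp hdis).le (Subgroup.mem_inf.mpr ⟨h1, h2⟩)
          exact Subgroup.mem_bot.mp this
        have h4 : x * y * x⁻¹ = y := mul_inv_eq_one.mp h3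
        exact mul_inv_eq_iff_eq_mul.mp h4
      exact hFC (hFle.trans (sup_le le_rfl hQC))

theorem exists_pair [Nontrivial G] : ∃ N M : Subgroup G, N.Normal ∧ N ≠ ⊥ ∧ InfIrred M ∧
    ¬ N ≤ M ∧ M ⊓ N = ⊥ := by
  obtain ⟨N, hN, hNb, hmin, hab, p, hp, hNp⟩ := exists_minimal (G := G)
  obtain ⟨H, hHC, hHN⟩ := exists_supplement hN hNb hmin hab hp hNp
  obtain ⟨M, ⟨hHM, hNM⟩, hmax⟩ := (wellFounded_gt (α := Subgroup G)).has_min
    {K : Subgroup G | H ≤ K ∧ ¬ N ≤ K} ⟨H, le_rfl, hHN⟩
  have hmax' : ∀ K, M < K → N ≤ K := by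
    intro K hK
    by_contra h
    exact hmax K ⟨hHM.trans hK.le, h⟩ hK
  refine ⟨N, M, hN, hNb, ⟨?_, ?_⟩, hNM, ?_⟩
  · intro h
    exact hNM ((isMax_iff_eq_top.mp h) ▸ le_top)
  · intro a b hab'
    by_contra h
    push Not at h
    have ha : M < a := lt_of_le_of_ne (hab' ▸ inf_le_left) (Ne.symm h.1)
    have hb : M < b := lt_of_le_of_ne (hab' ▸ inf_le_right) (Ne.symm h.2)
    exact hNM (hab' ▸ le_inf (hmax' a ha) (hmax' b hb))
  · have hKn : (M ⊓ N).Normal := by
      refine ⟨fun n hn g => ?_⟩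
      have hg : g ∈ H ⊔ Subgroup.centralizer (N : Set G) := by rw [hHC]; trivial
      obtain ⟨h, hh, c, hc, rfl⟩ := Subgroup.mem_sup_of_normal_right.mp hg
      have h1 : c * n * c⁻¹ = n := by
        have := (Subgroup.mem_centralizer_iff.mp hc) n (Subgroup.mem_inf.mp hn).2
        rw [← this, mul_inv_cancel_right]
      have h2 : h * c * n * (h * c)⁻¹ = h * (c * n * c⁻¹) * h⁻¹ := by group
      rw [h2, h1]
      refine Subgroup.mem_inf.mpr ⟨?_, hN.conj_mem _ (Subgroup.mem_inf.mp hn).2 h⟩
      exact M.mul_mem (M.mul_mem (hHM hh) (Subgroup.mem_inf.mp hn).1) (M.inv_mem (hHM hh))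
    exact (hmin _ hKn inf_le_right).resolve_right fun h => hNM (h ▸ inf_le_left)

end minimal

/-- the dual of the subgroup lattice -/
theorem strict_dual_aux (n : ℕ) : ∀ (G : Type u) [Group G] [Finite G] [Group.IsSolvable G],
    Nat.card G = n → StrictJ (Subgroup G)ᵒᵈ := by
  induction n using Nat.strong_induction_on with
  | _ n ih =>
    intro G _ _ _ hn
    rcases subsingleton_or_nontrivial G with hsub | hnt
    · exact Or.inr (boolLike_of_subsingleton _ (congrArg toDual (Subsingleton.elim _ _)))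
    obtain ⟨N, M, hN, hNb, hM, hNM, hMN⟩ := exists_pair (G := G)
    have hj : SupIrred (toDual M) := supIrred_toDual.mpr hM
    refine strict_step (m := toDual N) hj (fun h => hNM h) ?_ ?_
    · intro x hx
      have hxM : ofDual x ≤ M := hx
      change toDual ((ofDual x ⊔ N) ⊓ M) = x
      rw [← toDual_ofDual x]
      congr 1
      refine le_antisymm ?_ (le_inf le_sup_left hxM)
      intro g hg
      obtain ⟨hg1, hg2⟩ := Subgroup.mem_inf.mp hg
      obtain ⟨a, ha, b, hb, rfl⟩ := Subgroup.mem_sup_of_normal_right.mp hg1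
      have hbM : b ∈ M := by
        have := M.mul_mem (M.inv_mem (hxM ha)) hg2
        rwa [inv_mul_cancel_left] at this
      have hb1 : b ∈ M ⊓ N := Subgroup.mem_inf.mpr ⟨hbM, hb⟩
      rw [hMN, Subgroup.mem_bot] at hb1
      rw [hb1, mul_one]
      exact ha
    · have hcard : Nat.card (G ⧸ N) < n := by
        rw [← hn, Subgroup.card_eq_card_quotient_mul_card_subgroup N]
        have h1 : 1 < Nat.card N := by
          rw [Finite.one_lt_card_iff_nontrivial]
          exact (Subgroup.nontrivial_iff_ne_bot N).mpr hNb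
        have h2 : 0 < Nat.card (G ⧸ N) := Nat.card_pos
        nlinarith
      let e1 : Subgroup (G ⧸ N) ≃o {H : Subgroup G // N ≤ H} := QuotientGroup.comapMk'OrderIso N
      let e2 : {H : Subgroup G // N ≤ H}ᵒᵈ ≃o Set.Iic (toDual N) :=
        { toFun := fun x => ⟨toDual (ofDual x).1, (ofDual x).2⟩
          invFun := fun y => toDual ⟨ofDual y.1, y.2⟩
          left_inv := fun _ => rfl
          right_inv := fun _ => rfl
          map_rel_iff' := Iff.rfl }
      exact StrictJ.congr (e1.dual.trans e2) (ih _ hcard (G ⧸ N) rfl)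

theorem strict_dual (G : Type u) [Group G] [Finite G] [Group.IsSolvable G] :
    StrictJ (Subgroup G)ᵒᵈ := strict_dual_aux _ G rfl

end Pool.Agent.Q241.PN
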