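import Pool.Agent.TH903.Semi.Family
import Pool.Agent.TH903.Semi.Lower

/-!
# A product step for the strict form of Frankl's condition
-/

set_option autoImplicit false

namespace Pool.Agent.Q241.PN

open Pool.Agent.TH903.Semi

variable {L L' : Type*} [Lattice L] [BoundedOrder L] [Lattice L'] [BoundedOrder L']

/-- transfer of `StrictJ` along an order isomorphism -/
theorem StrictJ.congr (e : L ≃o L') (h : StrictJ L) : StrictJ L' := by
  have hup : ∀ j : L, Nat.card {x : L // j ≤ x} = Nat.card {x : L' // e j ≤ x} := by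
    intro j
    refine Nat.card_congr (e.toEquiv.subtypeEquiv fun x => ?_)
    exact (e.le_iff_le).symm
  have hc : Nat.card L = Nat.card L' := Nat.card_congr e.toEquiv
  rcases h with ⟨j, hj, hlt⟩ | ⟨n, hn, hat, hb⟩
  · left
    refine ⟨e j, ⟨?_, ?_⟩, ?_⟩
    · intro hm
      apply hj.1
      intro b hb
      have := hm (e.le_iff_le.mpr hb)
      exact e.le_iff_le.mp this
    · intro b c hbc
      have h1 : e.symm b ⊔ e.symm c = j := by
        rw [← e.symm.map_sup, hbc, e.symm_apply_apply]
      rcases hj.2 h1 with h2 | h2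
      · left; rw [← h2, e.apply_symm_apply]
      · right; rw [← h2, e.apply_symm_apply]
    · rw [← hup, ← hc]; exact hlt
  · right
    refine ⟨n, ?_, ?_, ?_⟩
    · rw [← hc]; exact hn
    · rw [← hat, ← Set.ncard_image_of_injective _ e.injective]
      congr 1
      ext a
      simp only [Set.mem_ofPred_eq, Set.mem_image]
      constructor
      · intro ha
        exact ⟨e.symm a, (e.symm.isAtom_iff a).mpr ha, e.apply_symm_apply a⟩
      · rintro ⟨b, hb, rfl⟩
        exact (e.isAtom_iff b).mpr hb
    · intro a ha hna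
      have h1 := hb (e.symm a) (fun h => ha (by rw [← e.apply_symm_apply a, h, e.map_bot]))
        (fun h => hna ((e.symm.isAtom_iff a).mp h))
      rw [hup, e.apply_symm_apply, hc] at h1
      exact h1

/-- the product step -/
theorem strict_step [Finite L] {m j : L} (hj : SupIrred j) (hjm : ¬ j ≤ m)
    (key : ∀ x, j ≤ x → (x ⊓ m) ⊔ j = x) (hrec : StrictJ (Set.Iic m)) : StrictJ L := by
  classical
  by_cases hs : 2 * Nat.card {x : L // j ≤ x} < Nat.card L
  · exact Or.inl ⟨j, hj, hs⟩
  have := Fintype.ofFinite L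
  have hcard : Nat.card {x : L // j ≤ x} + Nat.card {x : L // ¬ j ≤ x} = Nat.card L := by
    rw [← Nat.card_sum]
    exact Nat.card_congr (Equiv.sumCompl fun x : L => j ≤ x)
  let f : {x : L // j ≤ x} → {x : L // ¬ j ≤ x} := fun x =>
    ⟨x.1 ⊓ m, fun h => hjm (h.trans inf_le_right)⟩
  have hf : Function.Injective f := by
    rintro ⟨x, hx⟩ ⟨y, hy⟩ hxy
    have h1 : x ⊓ m = y ⊓ m := congrArg Subtype.val hxy
    apply Subtype.ext
    change x = y
    rw [← key x hx, ← key y hy, h1]
  have hle : Nat.card {x : L // ¬ j ≤ x} ≤ Nat.card {x : L // j ≤ x} := by omega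
  have hbij : Function.Bijective f := by
    rw [Nat.bijective_iff_injective_and_card]
    exact ⟨hf, le_antisymm (Nat.card_le_card_of_injective f hf) hle⟩
  have hsurj : ∀ y, ¬ j ≤ y → ∃ x, j ≤ x ∧ x ⊓ m = y := by
    intro y hy
    obtain ⟨⟨x, hx⟩, hxy⟩ := hbij.2 ⟨y, hy⟩
    exact ⟨x, hx, congrArg Subtype.val hxy⟩
  have hD : Decomp m j :=
    { nle := hjm
      cover := by
        intro y hy
        obtain ⟨x, -, rfl⟩ := hsurj y hy
        exact inf_le_right
      down := by
        intro y hy
        obtain ⟨x, hx, rfl⟩ := hsurj y (fun h => hjm (h.trans hy))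
        rw [key x hx]
      up := key }
  exact hD.strict hrec

end Pool.Agent.Q241.PN
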